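import Pool.Agent.Lib.MP_6bc78b_nt.MS.P4.Iface
import Pool.Agent.Lib.MP_6bc78b_nt.H11.Order
import Pool.Agent.Lib.MP_6bc78b_nt.H11.ExpSum

/-! Project MS, Part IV, module ZFAC: facts on Hardy's function and the zeros. -/

set_option autoImplicit false

open Complex Filter Topology

namespace Pool.Agent.Lib.MP_6bc78b_nt.MS.P4.H30

open Pool.Agent.Lib.MP_6bc78b_nt Pool.Agent.Lib.MP_6bc78b_nt.MS

theorem zeta_analyticAt (γ : ℝ) : AnalyticAt ℂ riemannZeta (1 / 2 + γ * I) := by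
  apply analyticOn_riemannZeta
  intro h
  have := congrArg Complex.re (h : (1 / 2 + γ * I : ℂ) = 1)
  simp at this

theorem hardyZ_zero_iff (γ : ℝ) : hardyZ γ = 0 ↔ riemannZeta (1 / 2 + γ * I) = 0 := by
  rw [← abs_eq_zero, abs_hardyZ, norm_eq_zero]

theorem mz_eq (γ : ℝ) : mz γ = zeroMult γ := by
  unfold mz analyticOrderNatAt
  rw [H11.order_eq]
  rfl

theorem order_eq_mz (γ : ℝ) : analyticOrderAt riemannZeta (1 / 2 + γ * I) = (mz γ : ℕ∞) := by
  rw [H11.order_eq, mz_eq]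

theorem zfac : ZfacStatement := by
  refine ⟨hardyZ_zero_iff, fun γ _ => (mz_eq γ).symm, ?_, ?_, ?_, ?_, ?_⟩
  · intro γ h
    by_contra hlt
    have h0 : mz γ = 0 := by omega
    have h1 : analyticOrderAt riemannZeta (1 / 2 + γ * I) = 0 := by
      rw [order_eq_mz, h0]; rfl
    exact ((zeta_analyticAt γ).analyticOrderAt_eq_zero.1 h1) h
  · intro γ h
    have h1 : riemannZeta (1 / 2 + γ * I) ≠ 0 := fun h2 => h ((hardyZ_zero_iff γ).2 h2)
    have h2 : analyticOrderAt riemannZeta (1 / 2 + γ * I) = 0 :=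
      (zeta_analyticAt γ).analyticOrderAt_eq_zero.2 h1
    rw [H11.order_eq] at h2
    exact_mod_cast h2
  · intro γ h
    have h1 : ((2 : ℕ) : ℕ∞) ≤ analyticOrderAt riemannZeta (1 / 2 + γ * I) := by
      rw [order_eq_mz]
      exact_mod_cast h
    rw [natCast_le_analyticOrderAt_iff_iteratedDeriv_eq_zero (zeta_analyticAt γ)] at h1
    have h2 := h1 1 (by norm_num)
    rwa [iteratedDeriv_one] at h2
  · intro X
    refine (H11.zeros_in_compact_finite X).subset ?_
    rintro γ ⟨h1, h2, h3⟩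
    exact ⟨by rw [abs_of_pos h1]; exact h2, h3⟩
  · intro T
    refine (H11.zeros_in_compact_finite (2 * |T|)).subset ?_
    rintro γ ⟨h1, h2, h3⟩
    refine ⟨?_, h3⟩
    have h4 := le_abs_self T
    have h5 := neg_abs_le T
    rw [abs_le]
    constructor
    · have h6 : (0 : ℝ) ≤ |T| := abs_nonneg T
      linarith
    · linarith

end Pool.Agent.Lib.MP_6bc78b_nt.MS.P4.H30
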